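import Pool.Agent.Lib_helper32.EvenHomeo.SpaceCoordDefs2

/-!
# PAR: the functions of the base in coordinates
-/

set_option linter.unusedSectionVars false

open Set Metric Topology

namespace Pool.Agent.EvenHomeo

namespace SpaceCoord

variable {k : ℕ}

open MinHomeo.SphChart in
theorem Par_e_re (t : ℝ) : (e t).re = Real.cos (2 * Real.pi * t) := by
  unfold e
  rw [Complex.exp_ofReal_mul_I_re]

open MinHomeo.SphChart in
theorem Par_e_im (t : ℝ) : (e t).im = Real.sin (2 * Real.pi * t) := by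
  unfold e
  rw [Complex.exp_ofReal_mul_I_im]

open MinHomeo.SphChart in
theorem Par_conj_e (t : ℝ) : (starRingEnd ℂ) (e t) = e (-t) := by
  apply Complex.ext
  · rw [Complex.conj_re, Par_e_re, Par_e_re]
    rw [show 2 * Real.pi * -t = -(2 * Real.pi * t) by ring, Real.cos_neg]
  · rw [Complex.conj_im, Par_e_im, Par_e_im]
    rw [show 2 * Real.pi * -t = -(2 * Real.pi * t) by ring, Real.sin_neg]

/-- `bpar` only depends on `s` and `θ` modulo `1`. -/
theorem bpar_congr (ρ : ℝ) {s s' θ θ' : ℝ} (hs : ∃ n : ℤ, s' = s + n) (hθ : ∃ n : ℤ, θ' = θ + n) :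
    bpar ρ s' θ' = bpar ρ s θ := by
  obtain ⟨n, rfl⟩ := hs
  obtain ⟨m, rfl⟩ := hθ
  unfold bpar
  rw [cr_add_int, cr_add_int]

open MinHomeo.SphChart in
theorem Par_arg {t r : ℝ} (hr : 0 < r) :
    ∃ n : ℤ, t = (e t * (r : ℂ)).arg / (2 * Real.pi) + n := by
  have h1 : (e ((e t * (r : ℂ)).arg / (2 * Real.pi))) = e t := by
    have h2 : e t * (r : ℂ) = ((r : ℝ) : ℂ) * e t := mul_comm _ _
    rw [h2, Complex.arg_real_mul _ hr]
    have h4 := e_arg (e t)
    rw [norm_e, Complex.ofReal_one, mul_one] at h4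
    exact h4
  exact (e_eq_iff _ _).1 h1

open MinHomeo.SphChart in
/-- PAR. -/
theorem parFacts (k : ℕ) : ParFacts_Stmt k := by
  rintro z r₀ r₁ w s θ ⟨hr₀, hr₁, h0, h1, hw⟩
  have n0 : ‖c0 z‖ = r₀ := by
    rw [h0, norm_mul, norm_e, one_mul, Complex.norm_real, Real.norm_of_nonneg hr₀.le]
  have n1 : ‖c1 z‖ = r₁ := by
    rw [h1, norm_mul, norm_e, one_mul, Complex.norm_real, Real.norm_of_nonneg hr₁.le]
  have nw : ‖cw z‖ = ‖w‖ := by
    rw [hw, norm_smul, norm_e, one_mul]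
  have hcc : c1 z * (starRingEnd ℂ) (c0 z) = e s * ((r₀ * r₁ : ℝ) : ℂ) := by
    rw [h0, h1, map_mul, Par_conj_e, Complex.conj_ofReal]
    have : e s = e (θ + s) * e (-θ) := by
      rw [← e_add]; congr 1; ring
    rw [this]
    push_cast
    ring
  have hrr : 0 < r₀ * r₁ := mul_pos hr₀ hr₁
  refine ⟨?_, ?_, ?_, ?_, ?_, ?_⟩
  · have h2 := sph_norm z
    have h3 : ‖(z : MinHomeo.Amb (G_ k)).snd‖ ^ 2 = ‖c1 z‖ ^ 2 + ‖cw z‖ ^ 2 :=
      WithLp.prod_norm_sq_eq_of_L2 _
    have h4 : ‖(z : MinHomeo.Amb (G_ k)).fst‖ = r₀ := n0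
    rw [h3, h4, n1, nw] at h2
    linarith
  · unfold Yc
    apply Complex.ext
    · show (c1 z).im = _
      rw [h1, Complex.mul_im, Complex.ofReal_re, Complex.ofReal_im, mul_zero, zero_add, Par_e_im]
      ring
    · show -(c0 z).im = _
      rw [h0, Complex.mul_im, Complex.ofReal_re, Complex.ofReal_im, mul_zero, zero_add, Par_e_im]
      ring
  · unfold Y3
    rw [h0, h1, Complex.mul_re, Complex.mul_re, Complex.ofReal_re, Complex.ofReal_im,
      Complex.ofReal_re, Complex.ofReal_im, Par_e_re, Par_e_re]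
    ring
  · unfold bB
    rw [n0, n1, hcc, h0]
    exact (bpar_congr _ (Par_arg hrr) (Par_arg hr₀)).symm
  · intro hs0 hs1
    unfold sB
    rw [if_pos]
    rw [hcc, Complex.mul_im, Complex.ofReal_re, Complex.ofReal_im, mul_zero, zero_add, Par_e_im]
    apply mul_nonneg _ hrr.le
    apply Real.sin_nonneg_of_nonneg_of_le_pi
    · have := Real.pi_pos; positivity
    · nlinarith [Real.pi_pos]
  · intro hs0 hs1
    unfold sB
    rw [if_neg]
    rw [hcc, Complex.mul_im, Complex.ofReal_re, Complex.ofReal_im, mul_zero, zero_add, Par_e_im,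
      not_le]
    apply mul_neg_of_neg_of_pos _ hrr
    have h5 : Real.sin (2 * Real.pi * s) = -Real.sin (2 * Real.pi * s - Real.pi) := by
      rw [Real.sin_sub_pi, neg_neg]
    rw [h5, neg_lt_zero]
    apply Real.sin_pos_of_pos_of_lt_pi
    · nlinarith [Real.pi_pos]
    · nlinarith [Real.pi_pos]

end SpaceCoord

end Pool.Agent.EvenHomeo
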