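import Pool.Agent.Lib_helper32.EvenHomeo.SpaceCoordQ
import Pool.Agent.Lib_helper32.EvenHomeo.SpaceCoordK
import Pool.Agent.Lib_helper53.EvenHomeo.ParFacts

/-!
# DISC: the points of `M` mapped to infinity
-/

set_option linter.unusedSectionVars false

open Set Metric Topology

namespace Pool.Agent.EvenHomeo

namespace SpaceCoord

variable {k : ℕ}

theorem Disc_Q1_zero (σ y b : ℝ) (c : ℂ) (hy : 0 ≤ y) :
    Q1 σ 0 y b c = c * (σ : ℂ) * (y : ℂ) := by
  unfold Q1
  rw [q1_zero_nonneg hy]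
  simp

theorem Disc_par (z : B_ k) (hY : Yc z = 0) (h3 : 0 ≤ Y3 z) :
    ∃ r₀ r₁ w, Par z r₀ r₁ w 0 0 ∧ (r₀ + r₁) / √2 - 9 / 10 = Y3 z := by
  have h1 : (c1 z).im = 0 := by
    have := congrArg Complex.re hY
    simpa [Yc] using this
  have h0 : (c0 z).im = 0 := by
    have := congrArg Complex.im hY
    simpa [Yc] using this
  have hn := c_norm z
  have hs := sqrt_two_bounds
  have hsum : 9 / 10 * √2 ≤ (c0 z).re + (c1 z).re := by
    unfold Y3 at h3
    have h4 : 9 / 10 ≤ ((c0 z).re + (c1 z).re) / √2 := by linarith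
    rwa [le_div_iff₀ (by linarith)] at h4
  have n0 : ‖c0 z‖ ^ 2 = (c0 z).re ^ 2 := by
    rw [← Complex.normSq_eq_norm_sq, Complex.normSq_apply, h0]; ring
  have n1 : ‖c1 z‖ ^ 2 = (c1 z).re ^ 2 := by
    rw [← Complex.normSq_eq_norm_sq, Complex.normSq_apply, h1]; ring
  have hw := sq_nonneg ‖cw z‖
  have p0 : 0 < (c0 z).re := by nlinarith
  have p1 : 0 < (c1 z).re := by nlinarith
  refine ⟨(c0 z).re, (c1 z).re, cw z, ⟨p0, p1, ?_, ?_, ?_⟩, rfl⟩
  · rw [MinHomeo.SphChart.e_zero, one_mul]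
    apply Complex.ext
    · simp
    · simpa using h0
  · rw [add_zero, MinHomeo.SphChart.e_zero, one_mul]
    apply Complex.ext
    · simp
    · simpa using h1
  · rw [MinHomeo.SphChart.e_zero, one_smul]

theorem Disc_Phi {f₁ f₂ : ℂ} {r x : ℝ} {w : F_ k} :
    Phi f₁ f₂ r x w = OnePoint.infty ↔ r = f₁.re := by
  unfold Phi
  constructor
  · intro h
    by_contra hn
    rw [if_neg hn] at h
    exact OnePoint.coe_ne_infty _ h
  · intro h
    rw [if_pos h]

/-- DISC. -/
theorem disc (k : ℕ) : Disc_Stmt k := by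
  refine ⟨fun z hY h3 => Disc_par z hY h3, fun z υ => ?_⟩
  unfold hh
  rw [Disc_Phi]
  simp only
  have hq : ‖Q1 (sB z) (Yc z) (Y3 z) (bB z) (eT υ)‖ = q1 (Yc z) (Y3 z) :=
    norm_Q1 (sB_pm z) _ _ _ (norm_eT υ)
  constructor
  · intro h
    have hle : q1 (Yc z) (Y3 z) ≤ nrm (Yc z) (Y3 z) := by
      refine abs_le_of_sq_le_sq' ?_ (nrm_nonneg _ _) |>.2
      rw [q1_sq]
      have := le_nrm (Yc z) (Y3 z)
      have := nrm_nonneg (Yc z) (Y3 z)
      nlinarith
    have hre : (Q1 (sB z) (Yc z) (Y3 z) (bB z) (eT υ)).re ≤ q1 (Yc z) (Y3 z) := by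
      rw [← hq]
      exact Complex.re_le_norm _
    have heq : q1 (Yc z) (Y3 z) = nrm (Yc z) (Y3 z) := le_antisymm hle (by rw [h]; exact hre)
    have hsq : nrm (Yc z) (Y3 z) * (nrm (Yc z) (Y3 z) + Y3 z) / 2 = nrm (Yc z) (Y3 z) ^ 2 := by
      rw [← q1_sq, heq]
    have hor : nrm (Yc z) (Y3 z) = Y3 z := by
      rcases eq_or_lt_of_le (nrm_nonneg (Yc z) (Y3 z)) with h0 | h0
      · have h4 := abs_le_nrm (Yc z) (Y3 z)
        rw [← h0] at h4
        have := abs_nonpos_iff.1 h4
        rw [← h0, this]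
      · have : nrm (Yc z) (Y3 z) * (Y3 z - nrm (Yc z) (Y3 z)) = 0 := by
          nlinarith
        rcases mul_eq_zero.1 this with h5 | h5
        · linarith
        · linarith
    have h3 : 0 ≤ Y3 z := by rw [← hor]; exact nrm_nonneg _ _
    have hY : Yc z = 0 := by
      have h5 := nrm_sq (Yc z) (Y3 z)
      rw [hor] at h5
      have h6 : ‖Yc z‖ ^ 2 = 0 := by linarith
      exact norm_eq_zero.1 (pow_eq_zero_iff (two_ne_zero) |>.1 h6)
    obtain ⟨r₀, r₁, w, hpar, hρ⟩ := Disc_par z hY h3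
    refine ⟨r₀, r₁, w, hpar, by rw [hρ]; exact h3, ?_⟩
    rw [hρ]
    rcases eq_or_lt_of_le h3 with h0 | h0
    · exact Or.inl h0.symm
    · right
      have hσ : sB z = 1 := (parFacts k z r₀ r₁ w 0 0 hpar).2.2.2.2.1 le_rfl (by norm_num)
      rw [hY, hσ, Disc_Q1_zero _ _ _ _ h3, nrm_zero_of_nonneg h3] at h
      have h7 : (eT υ).re = 1 := by
        have h8 : (eT υ * ((1 : ℝ) : ℂ) * (Y3 z : ℂ)).re = (eT υ).re * Y3 z := by
          simp
        rw [h8] at h
        have : ((eT υ).re - 1) * Y3 z = 0 := by linarith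
        rcases mul_eq_zero.1 this with h9 | h9
        · linarith
        · linarith
      have h8 : eT υ = 1 := by
        have h9 := norm_eT υ
        have h10 : (eT υ).re ^ 2 + (eT υ).im ^ 2 = 1 := by
          have := Complex.normSq_eq_norm_sq (eT υ)
          rw [Complex.normSq_apply, h9] at this
          linarith
        rw [h7] at h10
        have h11 : (eT υ).im = 0 := by nlinarith
        exact Complex.ext (by simpa using h7) (by simpa using h11)
      have h12 : AddCircle.toCircle υ = AddCircle.toCircle (0 : T) := by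
        rw [AddCircle.toCircle_zero]
        exact Circle.ext (by simpa [eT] using h8)
      exact AddCircle.injective_toCircle one_ne_zero h12
  · rintro ⟨r₀, r₁, w, hpar, hρ, hor⟩
    obtain ⟨-, hY, h3, -, hσ, -⟩ := parFacts k z r₀ r₁ w 0 0 hpar
    have hY' : Yc z = 0 := by
      rw [hY]
      apply Complex.ext
      · simp
      · simp
    have h3' : Y3 z = (r₀ + r₁) / √2 - 9 / 10 := by
      rw [h3]
      simp
    rw [← h3'] at hρ hor
    rw [hY', hσ le_rfl (by norm_num), Disc_Q1_zero _ _ _ _ hρ, nrm_zero_of_nonneg hρ]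
    rcases hor with h0 | h0
    · rw [h0]
      simp
    · rw [h0]
      have : eT 0 = 1 := by
        unfold eT
        rw [AddCircle.toCircle_zero]
        rfl
      rw [this]
      simp

end SpaceCoord

end Pool.Agent.EvenHomeo
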