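import Pool.Agent.Lib_helper30.EvenHomeo.Defs2
import Pool.Agent.Lib_helper30.EvenHomeo.Slab

/-!
# AK: the classical step
-/

set_option linter.unusedSectionVars false

open Set Metric Topology

namespace Pool.Agent.EvenHomeo

variable {X : Type} [NormedAddCommGroup X] [NormedSpace ℝ X] {Y B : Type} [MetricSpace Y]
  [MetricSpace B] {M : Type} [MetricSpace M]

/-- An irrational number is not a fraction, in terms of `cr`. -/
theorem AK_cr_pos {α : ℝ} (h : Irrational α) {j : ℕ} (hj : 1 ≤ j) : 0 < |cr (α * j)| := by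
  rw [abs_pos]
  intro h0
  obtain ⟨k, hk⟩ := (cr_eq_zero_iff _).1 h0
  have hj0 : (j : ℝ) ≠ 0 := by
    have : 0 < j := hj
    positivity
  apply h
  refine ⟨(k : ℚ) / (j : ℚ), ?_⟩
  push_cast
  rw [← hk]
  field_simp

/-- A positive lower bound for finitely many of the numbers `|cr (α j)|`. -/
theorem AK_exists_delta {α : ℝ} (h : Irrational α) (n : ℕ) :
    ∃ δ : ℝ, 0 < δ ∧ ∀ j : ℕ, 1 ≤ j → j ≤ n → 2 * δ < |cr (α * j)| := by
  induction n with
  | zero => exact ⟨1, one_pos, fun j h1 h2 => by omega⟩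
  | succ n ih =>
    obtain ⟨δ, hδ, hj⟩ := ih
    have h1 := AK_cr_pos h (j := n + 1) (by omega)
    refine ⟨min δ (|cr (α * ((n + 1 : ℕ) : ℝ))| / 3), by positivity, fun j h2 h3 => ?_⟩
    rcases Nat.lt_or_ge n j with h4 | h4
    · have h5 : j = n + 1 := by omega
      subst h5
      have := min_le_right δ (|cr (α * ((n + 1 : ℕ) : ℝ))| / 3)
      linarith
    · have := min_le_left δ (|cr (α * ((n + 1 : ℕ) : ℝ))| / 3)
      have := hj j h2 h4
      linarith

/-- AK. -/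
theorem ak [CompactSpace B] [CompactSpace M] (b : Base X Y B) (e : M)
    (hHit : HitRel_Stmt b.toRotChart) (hDr : Drift_Stmt b) (hComp : Comp_Stmt b M e)
    (hFi : AKFine_Stmt b M e) (hHi : AKHits_Stmt b M e) (hFr : Frozen_Stmt b M e) :
    AK_Stmt b M e := by
  intro lam δ C f p q hlam hlam' hql hq hpq hp1 hp2 hδ hδ' hf U V ε hV hVn hVU hVZ hε
  have hq0 : (0 : ℝ) < q := by
    have : 0 < q := hq
    positivity
  have h4 : 2 * (q : ℝ) * (2 * lam) < 1 := by
    have : 0 < (q : ℝ) * lam := by positivity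
    linarith
  have hZsub : b.Sheet lam ⊆ b.slab p q (2 * lam) :=
    (b.sheet_subset_slab lam p q).trans (b.slab_mono p q (by linarith))
  obtain ⟨A, O, hO, hZO, hAO, hAc, hAh⟩ := hHit q (b.slab p q (2 * lam)) V hq
    (b.slab_closed p q _) (fun z => b.slab_R hq _ z)
    (b.slab_compl_preconnected hq hpq (by positivity) h4)
    (fun z => b.exists_R_notMem_slab hq h4 z) hV hVn hVZ
  obtain ⟨C', hC'⟩ := hComp lam C A O hlam hlam' hO (hZsub.trans hZO) hAO
  obtain ⟨κ₁, hκ₁, hdr⟩ := hDr lam p q (A ⁻¹' V) hlam hlam' hql hq hpq hp1 hp2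
    (hV.preimage A.continuous)
    (by
      intro x hx hxZ
      have h5 : A x = x := hAO x (hZO hxZ)
      rw [mem_preimage, h5] at hx
      exact hVZ x hx hxZ)
    hAh
  obtain ⟨κ₂, hκ₂, hfi⟩ := hFi lam δ C C' f p q A O ε hlam hlam' hql hq hpq hp1 hp2 hδ hδ' hf hO
    hZO hAO hAc hC' hε
  set κ : ℝ := min (min κ₁ κ₂) (1 / 3 - (p : ℝ) / q) with hκ
  have hκ0 : 0 < κ := by
    have : 0 < 1 / 3 - (p : ℝ) / q := by linarith
    positivity
  obtain ⟨α', hα', h6, h7⟩ := exists_irrational_btwn (show (p : ℝ) / q < (p : ℝ) / q + κ by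
    linarith)
  have h8 : |α' - (p : ℝ) / q| < κ := by
    rw [abs_of_pos (by linarith)]
    linarith
  have hκ1 : κ ≤ κ₁ := (min_le_left _ _).trans (min_le_left _ _)
  have hκ2 : κ ≤ κ₂ := (min_le_left _ _).trans (min_le_right _ _)
  have hκ3 : κ ≤ 1 / 3 - (p : ℝ) / q := min_le_right _ _
  obtain ⟨N, hN⟩ := hdr α' (by linarith [h6] |> fun h : (p : ℝ) / q < α' => h.ne')
    (lt_of_lt_of_le h8 hκ1)
  obtain ⟨δ₁, hδ₁, hδ₁'⟩ := AK_exists_delta hα' (2 * N + 2)
  set δ' : ℝ := min (min δ₁ (κ₂ / 2)) (1 / 20) with hδ'def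
  have hδ'0 : 0 < δ' := by positivity
  have hδ'1 : δ' ≤ δ₁ := (min_le_left _ _).trans (min_le_left _ _)
  have hδ'2 : δ' ≤ κ₂ / 2 := (min_le_left _ _).trans (min_le_right _ _)
  have hδ'3 : δ' ≤ 1 / 20 := min_le_right _ _
  have hα1 : 1 / 5 < α' := by linarith
  have hα2 : α' < 1 / 3 := by linarith
  obtain ⟨f', hf'⟩ := hFr lam α' δ' C' hlam hlam' hα1 hα2 hδ'0 hδ'3
  refine ⟨C', α', δ', f', N, hα1, hα2, hδ'0, hδ'3, hf', ?_, ?_⟩
  · exact hfi α' δ' f' (lt_of_lt_of_le h8 hκ2) hδ'0 (by linarith) hf'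
  · refine hHi lam α' δ' C' f' N (A ⁻¹' V) U hlam hlam' hα1 hα2 hδ'0 hδ'3 hf' ?_ ?_ hN
    · intro j h9 h10
      have := hδ₁' j h9 h10
      linarith
    · intro x hx
      rw [hC']
      exact hVU _ hx

end Pool.Agent.EvenHomeo
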