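import Pool.Agent.Lib_helper30.EvenHomeo.Defs
import Pool.Agent.Lib_helper57.MinHomeo.Basic
import Pool.Agent.Lib_helper73.MinHomeo.Move

/-!
# HITREL: a homeomorphism which makes every circle visit an open set
-/

set_option linter.unusedSectionVars false

open Set Metric Topology

namespace Pool.Agent.EvenHomeo

open Pool.Agent.MinHomeo (RotChart)

namespace HitRel

variable {X : Type} [NormedAddCommGroup X] [NormedSpace ℝ X] {B : Type} [MetricSpace B]

/-! ## Rotations of the first factor -/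

/-- The rotation of the first factor. -/
noncomputable def rr (C : RotChart X B) (t : ℝ) (p : B × T) : B × T := (C.R t p.1, p.2)

variable (C : RotChart X B)

lemma rr_add (s t : ℝ) (p : B × T) : rr C (s + t) p = rr C s (rr C t p) := by
  simp [rr, C.R_add]

lemma rr_zero (p : B × T) : rr C 0 p = p := by
  simp [rr, C.R_zero]

lemma rr_int (k : ℤ) (p : B × T) : rr C k p = p := by
  simp [rr, C.R_int]

lemma rr_neg (t : ℝ) (p : B × T) : rr C (-t) (rr C t p) = p := by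
  rw [← rr_add, neg_add_cancel, rr_zero]

lemma rr_cont2 : Continuous fun x : ℝ × (B × T) => rr C x.1 x.2 := by
  unfold rr
  have h := C.R_cont
  fun_prop

lemma rr_cont (t : ℝ) : Continuous (rr C t) := by
  have := (rr_cont2 C).comp (Continuous.prodMk_right t)
  exact this

lemma rr_isom (t : ℝ) : Isometry (rr C t) := by
  refine Isometry.of_dist_eq fun p p' => ?_
  simp [rr, Prod.dist_eq, C.R_isom]

/-- The rotation as a homeomorphism. -/
noncomputable def rrh (t : ℝ) : B × T ≃ₜ B × T where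
  toFun := rr C t
  invFun := rr C (-t)
  left_inv p := rr_neg C t p
  right_inv p := by
    have := rr_neg C (-t) p
    rwa [neg_neg] at this
  continuous_toFun := rr_cont C t
  continuous_invFun := rr_cont C (-t)

/-- Invariance under the rotation by `1 / q`. -/
def Inv (q : ℕ) (P : Set (B × T)) : Prop := ∀ p, rr C (1 / (q : ℝ)) p ∈ P ↔ p ∈ P

/-- Commutation with the rotation by `1 / q`. -/
def Comm (q : ℕ) (A : B × T ≃ₜ B × T) : Prop :=
  ∀ p, A (rr C (1 / (q : ℝ)) p) = rr C (1 / (q : ℝ)) (A p)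

lemma rr_succ (q : ℕ) (k : ℤ) (p : B × T) :
    rr C (((k + 1 : ℤ) : ℝ) / q) p = rr C (1 / (q : ℝ)) (rr C ((k : ℝ) / q) p) := by
  rw [← rr_add]
  congr 1
  push_cast
  ring

variable {C}

lemma Inv.int {q : ℕ} {P : Set (B × T)} (h : Inv C q P) (k : ℤ) :
    ∀ p, rr C ((k : ℝ) / q) p ∈ P ↔ p ∈ P := by
  induction k using Int.induction_on with
  | zero => intro p; simp [rr_zero]
  | succ i ih =>
    intro p
    rw [rr_succ, h, ih]
  | pred i ih =>
    intro p
    rw [← ih p, ← h]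
    have := rr_succ C q (-(i : ℤ) - 1) p
    rw [← this]
    simp

lemma Comm.int {q : ℕ} {A : B × T ≃ₜ B × T} (h : Comm C q A) (k : ℤ) :
    ∀ p, A (rr C ((k : ℝ) / q) p) = rr C ((k : ℝ) / q) (A p) := by
  induction k using Int.induction_on with
  | zero => intro p; simp [rr_zero]
  | succ i ih =>
    intro p
    rw [rr_succ, h, ih, rr_succ]
  | pred i ih =>
    intro p
    have h1 := ih p
    have e1 : rr C (((-(i : ℤ) : ℤ) : ℝ) / q) p =
        rr C (1 / (q : ℝ)) (rr C (((-(i : ℤ) - 1 : ℤ) : ℝ) / q) p) := by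
      rw [← rr_succ]; simp
    have e2 : rr C (((-(i : ℤ) : ℤ) : ℝ) / q) (A p) =
        rr C (1 / (q : ℝ)) (rr C (((-(i : ℤ) - 1 : ℤ) : ℝ) / q) (A p)) := by
      rw [← rr_succ]; simp
    rw [e1, e2, h] at h1
    exact (rrh C (1 / (q : ℝ))).injective h1

lemma Comm.refl (q : ℕ) : Comm C q (Homeomorph.refl _) := fun _ => rfl

lemma Comm.trans {q : ℕ} {A A' : B × T ≃ₜ B × T} (h : Comm C q A) (h' : Comm C q A') :
    Comm C q (A.trans A') := by
  intro p
  rw [Homeomorph.trans_apply, h p, h' (A p)]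
  rfl

lemma Comm.symm {q : ℕ} {A : B × T ≃ₜ B × T} (h : Comm C q A) : Comm C q A.symm := by
  intro p
  rw [Homeomorph.symm_apply_eq, h, Homeomorph.apply_symm_apply]

/-! ## The flow charts -/

/-- The flow chart around a point. -/
noncomputable def psi (C : RotChart X B) (u : B ≃ₜ B) (υ : T) (x : (X × ℝ) × ℝ) : B × T :=
  (u (C.Φ (x.1.1, x.2)), υ + ((x.1.2 : ℝ) : T))

lemma psi_cont (u : B ≃ₜ B) (υ : T) : Continuous (psi C u υ) := by
  unfold psi
  have h1 := C.Φ_cont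
  have h2 := u.continuous
  have h3 : Continuous fun x : ℝ => (x : T) := AddCircle.continuous_mk' _
  fun_prop

lemma psi_open (u : B ≃ₜ B) (υ : T) : IsOpenMap (psi C u υ) := by
  have h1 : IsOpenMap fun y : X × ℝ => u (C.Φ y) := u.isOpenMap.comp C.Φ_open
  have h2 : IsOpenMap fun τ : ℝ => υ + (τ : T) :=
    (Homeomorph.addLeft υ).isOpenMap.comp QuotientAddGroup.isOpenMap_coe
  have h3 := h1.prodMap h2
  let sw : (X × ℝ) × ℝ ≃ₜ (X × ℝ) × ℝ :=
    { toFun := fun x => ((x.1.1, x.2), x.1.2)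
      invFun := fun x => ((x.1.1, x.2), x.1.2)
      left_inv := fun _ => rfl
      right_inv := fun _ => rfl
      continuous_toFun := by fun_prop
      continuous_invFun := by fun_prop }
  exact h3.comp sw.isOpenMap

lemma rr_psi {u : B ≃ₜ B} (hu : ∀ t x, u (C.R t x) = C.R t (u x)) (υ : T) (t : ℝ)
    (x : (X × ℝ) × ℝ) : rr C t (psi C u υ x) = psi C u υ (x.1, x.2 + t) := by
  simp [rr, psi, ← hu, C.R_Φ]

lemma coe_eq_iff (a b : ℝ) : ((a : ℝ) : T) = (b : T) ↔ ∃ k : ℤ, b = a + k := by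
  rw [eq_comm, ← sub_eq_zero, ← AddCircle.coe_sub, AddCircle.coe_eq_zero_iff]
  constructor
  · rintro ⟨n, hn⟩
    exact ⟨n, by simp at hn; linarith⟩
  · rintro ⟨n, hn⟩
    exact ⟨n, by simp; linarith⟩

lemma psi_eq {u : B ≃ₜ B} {υ : T} {x x' : (X × ℝ) × ℝ} (h : psi C u υ x = psi C u υ x') :
    x.1.1 = x'.1.1 ∧ (∃ k : ℤ, x'.2 = x.2 + k) ∧ ∃ k : ℤ, x'.1.2 = x.1.2 + k := by
  simp only [psi, Prod.mk.injEq] at h
  obtain ⟨h1, h2⟩ := h
  have h3 := u.injective h1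
  rw [C.Φ_eq] at h3
  rw [add_right_inj, coe_eq_iff] at h2
  exact ⟨h3.1, h3.2, h2⟩

lemma int_zero_of_abs_lt {k : ℤ} (h : |(k : ℝ)| < 1) : k = 0 := by
  have : |k| < 1 := by exact_mod_cast h
  exact Int.abs_lt_one_iff.1 this

/-- The domain on which the translates of the chart are injective. -/
def dom (q : ℕ) : Set ((X × ℝ) × ℝ) := {x | |x.1.2| < 1 / 2 ∧ |x.2| < 1 / (2 * (q : ℝ))}

lemma dom_open (q : ℕ) : IsOpen (dom (X := X) q) := by
  unfold dom
  have h1 : Continuous fun x : (X × ℝ) × ℝ => |x.1.2| := by fun_prop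
  have h2 : Continuous fun x : (X × ℝ) × ℝ => |x.2| := by fun_prop
  exact (isOpen_lt h1 continuous_const).inter (isOpen_lt h2 continuous_const)

lemma psi_inj {q : ℕ} (hq : 1 ≤ q) {u : B ≃ₜ B} (hu : ∀ t x, u (C.R t x) = C.R t (u x)) {υ : T}
    {x x' : (X × ℝ) × ℝ} (hx : x ∈ dom q) (hx' : x' ∈ dom q) {k k' : ℕ} (hk : k < q)
    (hk' : k' < q)
    (h : rr C ((k : ℝ) / q) (psi C u υ x) = rr C ((k' : ℝ) / q) (psi C u υ x')) :
    k = k' ∧ x = x' := by
  have hq0 : (0 : ℝ) < q := by exact_mod_cast hq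
  rw [rr_psi hu, rr_psi hu] at h
  obtain ⟨h1, ⟨m, h2⟩, ⟨l, h3⟩⟩ := psi_eq h
  simp only at h1 h2 h3
  have hl : l = 0 := by
    apply int_zero_of_abs_lt
    have : (l : ℝ) = x'.1.2 - x.1.2 := by linarith
    rw [this]
    have := hx.1
    have := hx'.1
    rw [abs_lt] at *
    constructor <;> linarith [hx.1, hx'.1]
  subst hl
  have hz : ((k : ℤ) - k' + m * q : ℤ) = 0 := by
    apply int_zero_of_abs_lt
    have e1 : (((k : ℤ) - k' + m * q : ℤ) : ℝ) = q * (x'.2 - x.2) := by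
      push_cast
      have : x'.2 - x.2 = (k : ℝ) / q - (k' : ℝ) / q + m := by linarith
      rw [this]
      field_simp
    rw [e1, abs_mul, abs_of_pos hq0]
    have h4 := hx.2
    have h5 := hx'.2
    have h6 : |x'.2 - x.2| < 1 / q := by
      have h7 : |x'.2 - x.2| ≤ |x'.2| + |x.2| := abs_sub _ _
      have h8 : 1 / (2 * (q : ℝ)) + 1 / (2 * (q : ℝ)) = 1 / q := by field_simp; norm_num
      linarith
    calc (q : ℝ) * |x'.2 - x.2| < q * (1 / q) := by gcongr
      _ = 1 := by field_simp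
  have hm : m = 0 := by
    by_contra hm
    have : |m| ≥ 1 := Int.one_le_abs hm
    have h4 : |(m : ℤ) * q| < q := by
      have : (m : ℤ) * q = k' - k := by linarith
      rw [this, abs_lt]
      constructor <;> omega
    rw [abs_mul] at h4
    have h5 : |(q : ℤ)| = q := abs_of_nonneg (by positivity)
    rw [h5] at h4
    nlinarith
  subst hm
  have hkk : k = k' := by
    have : (k : ℤ) = k' := by linarith
    exact_mod_cast this
  subst hkk
  refine ⟨rfl, ?_⟩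
  have h9 : x.2 = x'.2 := by push_cast at h2; linarith
  have h10 : x.1.2 = x'.1.2 := by push_cast at h3; linarith
  exact Prod.ext (Prod.ext h1 h10) h9

lemma rr_mod {q : ℕ} (hq : 1 ≤ q) (k : ℤ) (p : B × T) :
    rr C ((k : ℝ) / q) p = rr C (((k % q).toNat : ℝ) / q) p := by
  have hq0 : (0 : ℝ) < q := by exact_mod_cast hq
  have hqz : (0 : ℤ) < q := by exact_mod_cast hq
  have h1 : 0 ≤ k % q := Int.emod_nonneg _ hqz.ne'
  have h2 : (((k % q).toNat : ℤ) : ℤ) = k % q := Int.toNat_of_nonneg h1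
  have h3 : (((k % q).toNat : ℝ)) = ((k % q : ℤ) : ℝ) := by
    exact_mod_cast congrArg (fun z : ℤ => (z : ℝ)) h2
  rw [h3]
  have h4 : (k : ℝ) / q = ((k % q : ℤ) : ℝ) / q + ((k / q : ℤ) : ℝ) := by
    have h5 := Int.emod_add_mul_ediv k q
    have h6 : (k : ℝ) = ((k % q : ℤ) : ℝ) + q * ((k / q : ℤ) : ℝ) := by
      exact_mod_cast h5.symm
    rw [h6]
    field_simp
  rw [h4, rr_add, rr_int]

lemma toNat_lt {q : ℕ} (hq : 1 ≤ q) (k : ℤ) : (k % q).toNat < q := by
  have hqz : (0 : ℤ) < q := by exact_mod_cast hq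
  have h1 : 0 ≤ k % q := Int.emod_nonneg _ hqz.ne'
  have h2 := Int.emod_lt_of_pos k hqz
  omega

/-- Equivariant transport. -/
lemma transport (hT : Transport_Stmt) [CompactSpace B] {q : ℕ} (hq : 1 ≤ q) {u : B ≃ₜ B}
    (hu : ∀ t x, u (C.R t x) = C.R t (u x)) (υ : T) (K : Set ((X × ℝ) × ℝ)) (hK : IsCompact K)
    (hKd : K ⊆ dom q) (τ : (X × ℝ) × ℝ → (X × ℝ) × ℝ) (hτ : Continuous τ)
    (hτb : Function.Bijective τ) (hτi : ∀ x, x ∉ K → τ x = x) :
    ∃ G : B × T ≃ₜ B × T, Comm C q G ∧ (∀ x ∈ dom q, G (psi C u υ x) = psi C u υ (τ x)) ∧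
      ∀ p, (∀ k : ℤ, ∀ x ∈ K, p ≠ rr C ((k : ℝ) / q) (psi C u υ x)) → G p = p := by
  classical
  let g : Fin q × ((X × ℝ) × ℝ) → B × T := fun a => rr C ((a.1 : ℝ) / q) (psi C u υ a.2)
  have hgc : Continuous g := by
    have h0 : Continuous fun a : Fin q × ((X × ℝ) × ℝ) => (((a.1 : ℕ) : ℝ) / (q : ℝ)) :=
      (continuous_of_discreteTopology (f := fun i : Fin q => (((i : ℕ) : ℝ) / (q : ℝ)))).comp
        continuous_fst
    exact (rr_cont2 C).comp (h0.prodMk ((psi_cont u υ).comp continuous_snd))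
  have hgo : IsOpenMap g := by
    intro U hU
    have e : g '' U = ⋃ i : Fin q, (rrh C ((i : ℝ) / q)) '' (psi C u υ ''
        ((fun x => (i, x)) ⁻¹' U)) := by
      ext p
      simp only [mem_image, mem_iUnion, mem_preimage]
      constructor
      · rintro ⟨⟨i, x⟩, hx, rfl⟩
        exact ⟨i, _, ⟨x, hx, rfl⟩, rfl⟩
      · rintro ⟨i, _, ⟨x, hx, rfl⟩, rfl⟩
        exact ⟨(i, x), hx, rfl⟩
    rw [e]
    refine isOpen_iUnion fun i => (rrh C _).isOpenMap _ (psi_open u υ _ ?_)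
    exact hU.preimage (by fun_prop)
  have hgi : InjOn g {a | a.2 ∈ dom q} := by
    rintro ⟨i, x⟩ hx ⟨j, y⟩ hy h
    have := psi_inj hq hu hx hy i.2 j.2 h
    exact Prod.ext (Fin.ext this.1) this.2
  have hKc : IsCompact {a : Fin q × ((X × ℝ) × ℝ) | a.2 ∈ K} := by
    have : {a : Fin q × ((X × ℝ) × ℝ) | a.2 ∈ K} = (univ : Set (Fin q)) ×ˢ K := by
      ext a; simp
    rw [this]
    exact isCompact_univ.prod hK
  obtain ⟨G, hG1, hG2⟩ := hT (Fin q × ((X × ℝ) × ℝ)) (B × T) g {a | a.2 ∈ dom q}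
    {a | a.2 ∈ K} (fun a => (a.1, τ a.2)) ((dom_open q).preimage continuous_snd) hgo
    hgc.continuousOn hgi hKc (fun a ha => hKd ha) (by fun_prop)
    (by
      constructor
      · rintro ⟨i, x⟩ ⟨j, y⟩ h
        simp only [Prod.mk.injEq] at h
        exact Prod.ext h.1 (hτb.1 h.2)
      · rintro ⟨i, x⟩
        obtain ⟨y, hy⟩ := hτb.2 x
        exact ⟨(i, y), by simp [hy]⟩)
    (by
      rintro ⟨i, x⟩ h
      simp only [Prod.mk.injEq, true_and]
      exact hτi x h)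
  have hG3 : ∀ (k : ℤ), ∀ x ∈ dom q, G (rr C ((k : ℝ) / q) (psi C u υ x)) =
      rr C ((k : ℝ) / q) (psi C u υ (τ x)) := by
    intro k x hx
    rw [rr_mod hq, rr_mod hq]
    exact hG1 (⟨(k % q).toNat, toNat_lt hq k⟩, x) hx
  have hG4 : ∀ p, (∀ k : ℤ, ∀ x ∈ K, p ≠ rr C ((k : ℝ) / q) (psi C u υ x)) → G p = p := by
    intro p hp
    apply hG2
    rintro ⟨⟨i, x⟩, hx, rfl⟩
    exact hp i x hx (by simp [g])
  refine ⟨G, ?_, ?_, hG4⟩
  · intro p
    by_cases hp : ∃ k : ℤ, ∃ x ∈ dom q, p = rr C ((k : ℝ) / q) (psi C u υ x)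
    · obtain ⟨k, x, hx, rfl⟩ := hp
      rw [hG3 k x hx, ← rr_succ, ← rr_succ, hG3 _ x hx]
    · push Not at hp
      rw [hG4 p fun k x hx => hp k x (hKd hx), hG4]
      intro k x hx h
      apply hp (k - 1) x (hKd hx)
      have e := rr_succ C q (k - 1) (psi C u υ x)
      rw [sub_add_cancel, ← h] at e
      exact (rrh C (1 / (q : ℝ))).injective e
  · intro x hx
    have := hG3 0 x hx
    simpa [rr_zero] using this

/-- The homeomorphism `A` has compact support in `P`. -/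
def Supp (A : B × T ≃ₜ B × T) (P : Set (B × T)) : Prop :=
  ∃ K, IsCompact K ∧ K ⊆ P ∧ ∀ p, p ∉ K → A p = p

lemma Supp.refl (P : Set (B × T)) : Supp (Homeomorph.refl (B × T)) P :=
  ⟨∅, isCompact_empty, empty_subset _, fun _ _ => rfl⟩

lemma Supp.trans {A A' : B × T ≃ₜ B × T} {P : Set (B × T)} (h : Supp A P) (h' : Supp A' P) :
    Supp (A.trans A') P := by
  obtain ⟨K, hK, hKP, hA⟩ := h
  obtain ⟨K', hK', hKP', hA'⟩ := h'
  refine ⟨K ∪ K', hK.union hK', union_subset hKP hKP', fun p hp => ?_⟩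
  rw [Homeomorph.trans_apply, hA p fun h => hp (Or.inl h), hA' p fun h => hp (Or.inr h)]

lemma Supp.symm {A : B × T ≃ₜ B × T} {P : Set (B × T)} (h : Supp A P) : Supp A.symm P := by
  obtain ⟨K, hK, hKP, hA⟩ := h
  refine ⟨K, hK, hKP, fun p hp => ?_⟩
  rw [Homeomorph.symm_apply_eq, hA p hp]

lemma Supp.mono {A : B × T ≃ₜ B × T} {P P' : Set (B × T)} (h : Supp A P) (h' : P ⊆ P') :
    Supp A P' := by
  obtain ⟨K, hK, hKP, hA⟩ := h
  exact ⟨K, hK, hKP.trans h', hA⟩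

lemma Supp.id {A : B × T ≃ₜ B × T} {P : Set (B × T)} (h : Supp A P) {p : B × T} (hp : p ∉ P) :
    A p = p := by
  obtain ⟨K, hK, hKP, hA⟩ := h
  exact hA p fun h => hp (hKP h)

lemma Supp.maps {A : B × T ≃ₜ B × T} {P : Set (B × T)} (h : Supp A P) {p : B × T}
    (hp : A p ∈ P) : p ∈ P := by
  by_contra hn
  rw [h.id hn] at hp
  exact hn hp

lemma transport' (hT : Transport_Stmt) [CompactSpace B] {q : ℕ} (hq : 1 ≤ q) {u : B ≃ₜ B}
    (hu : ∀ t x, u (C.R t x) = C.R t (u x)) (υ : T) (P : Set (B × T)) (hP : Inv C q P)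
    (K : Set ((X × ℝ) × ℝ)) (hK : IsCompact K)
    (hKd : K ⊆ dom q) (hKP : ∀ x ∈ K, psi C u υ x ∈ P)
    (τ : (X × ℝ) × ℝ → (X × ℝ) × ℝ) (hτ : Continuous τ)
    (hτb : Function.Bijective τ) (hτi : ∀ x, x ∉ K → τ x = x) :
    ∃ G : B × T ≃ₜ B × T, Comm C q G ∧ Supp G P ∧
      ∀ x ∈ dom q, G (psi C u υ x) = psi C u υ (τ x) := by
  obtain ⟨G, h1, h2, h3⟩ := transport hT hq hu υ K hK hKd τ hτ hτb hτi
  refine ⟨G, h1, ⟨⋃ i : Fin q, (rrh C ((i : ℝ) / q)) '' (psi C u υ '' K), ?_, ?_, ?_⟩, h2⟩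
  · exact isCompact_iUnion fun i => (hK.image (psi_cont u υ)).image (rrh C _).continuous
  · apply iUnion_subset
    rintro i _ ⟨_, ⟨x, hx, rfl⟩, rfl⟩
    have := (hP.int (i : ℤ) (psi C u υ x)).2 (hKP x hx)
    simpa [rrh] using this
  · intro p hp
    apply h3
    rintro k x hx rfl
    apply hp
    rw [mem_iUnion]
    refine ⟨⟨(k % q).toNat, toNat_lt hq k⟩, _, ⟨x, hx, rfl⟩, ?_⟩
    rw [rr_mod hq]
    rfl

lemma exists_chart (y : B × T) : ∃ u : B ≃ₜ B, (∀ t x, u (C.R t x) = C.R t (u x)) ∧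
    psi C u y.2 0 = y := by
  obtain ⟨u, hu, h0⟩ := C.trans y.1
  refine ⟨u, hu, ?_⟩
  apply Prod.ext
  · exact h0
  · simp [psi]

/-! ## Local moves -/

lemma bump_lip {E : Type*} [NormedAddCommGroup E] [NormedSpace ℝ E] {r : ℝ} (hr : 0 < r)
    (w x x' : E) : ‖max 0 (1 - ‖x‖ / r) • w - max 0 (1 - ‖x'‖ / r) • w‖ ≤
      (‖w‖ / r) * ‖x - x'‖ := by
  rw [← sub_smul, norm_smul, Real.norm_eq_abs]
  have h1 : |max 0 (1 - ‖x‖ / r) - max 0 (1 - ‖x'‖ / r)| ≤ ‖x - x'‖ / r := by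
    have h2 := abs_max_sub_max_le_max (0 : ℝ) (1 - ‖x‖ / r) 0 (1 - ‖x'‖ / r)
    have h3 : |(1 - ‖x‖ / r) - (1 - ‖x'‖ / r)| ≤ ‖x - x'‖ / r := by
      have h4 : (1 - ‖x‖ / r) - (1 - ‖x'‖ / r) = (‖x'‖ - ‖x‖) / r := by ring
      rw [h4, abs_div, abs_of_pos hr, norm_sub_rev]
      gcongr
      exact abs_norm_sub_norm_le _ _
    refine h2.trans ?_
    simpa using h3
  calc |max 0 (1 - ‖x‖ / r) - max 0 (1 - ‖x'‖ / r)| * ‖w‖ ≤ (‖x - x'‖ / r) * ‖w‖ := by gcongr
    _ = (‖w‖ / r) * ‖x - x'‖ := by ring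

lemma local_move (hT : Transport_Stmt) [CompactSpace B] [FiniteDimensional ℝ X] {q : ℕ}
    (hq : 1 ≤ q) (P : Set (B × T)) (hPo : IsOpen P) (hP : Inv C q P) (y : B × T) (hy : y ∈ P) :
    ∃ N : Set (B × T), IsOpen N ∧ y ∈ N ∧ N ⊆ P ∧ ∀ y' ∈ N, ∃ G : B × T ≃ₜ B × T,
      Comm C q G ∧ Supp G P ∧ G y = y' := by
  have hcs : CompleteSpace X := FiniteDimensional.complete ℝ X
  have hps : ProperSpace X := FiniteDimensional.proper ℝ X
  have hq0 : (0 : ℝ) < q := by exact_mod_cast hq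
  obtain ⟨u, hu, h0⟩ := exists_chart (C := C) y
  have ho : IsOpen (psi C u y.2 ⁻¹' P ∩ dom q) :=
    (hPo.preimage (psi_cont u y.2)).inter (dom_open q)
  have hm : (0 : (X × ℝ) × ℝ) ∈ psi C u y.2 ⁻¹' P ∩ dom q := by
    refine ⟨by rw [mem_preimage, h0]; exact hy, ?_, ?_⟩
    · simp
    · simp [hq0]
  obtain ⟨r, hr, hb⟩ := Metric.nhds_basis_closedBall.mem_iff.1 (ho.mem_nhds hm)
  refine ⟨psi C u y.2 '' ball 0 r, psi_open u y.2 _ isOpen_ball,
    ⟨0, mem_ball_self hr, h0⟩, ?_, ?_⟩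
  · rintro _ ⟨x, hx, rfl⟩
    exact (hb (ball_subset_closedBall hx)).1
  · rintro _ ⟨w, hw, rfl⟩
    have hw' : ‖w‖ < r := by simpa using hw
    obtain ⟨G, h1, h2, h3⟩ := transport' hT hq hu y.2 P hP (closedBall 0 r)
      (isCompact_closedBall 0 r) (fun x hx => (hb hx).2) (fun x hx => (hb hx).1)
      (fun x => x + max 0 (1 - ‖x‖ / r) • w)
      (by fun_prop)
      (MinHomeo.Move.bij_of_contr (fun x => max 0 (1 - ‖x‖ / r) • w) (‖w‖ / r)
        ((div_lt_one hr).2 hw') (by positivity) (bump_lip hr w))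
      (by
        intro x hx
        have hx' : r < ‖x‖ := by simpa using hx
        have : max 0 (1 - ‖x‖ / r) = 0 := by
          apply max_eq_left
          have : 1 ≤ ‖x‖ / r := (one_le_div hr).2 hx'.le
          linarith
        simp [this])
    refine ⟨G, h1, h2, ?_⟩
    have := h3 0 hm.2
    rw [h0] at this
    rw [this]
    simp

/-! ## Compressions -/

lemma radial_bij {E : Type*} [NormedAddCommGroup E] [NormedSpace ℝ E] (l : ℝ → ℝ)
    (hl : Continuous l) (hm : Monotone l) (hp : ∀ ρ, 0 < l ρ) (R : ℝ) (hR : ∀ ρ, R ≤ ρ → l ρ = 1) :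
    Function.Bijective fun x : E => l ‖x‖ • x := by
  constructor
  · intro x y h
    simp only at h
    have hn : l ‖x‖ * ‖x‖ = l ‖y‖ * ‖y‖ := by
      have := congrArg norm h
      rwa [norm_smul, norm_smul, Real.norm_of_nonneg (hp _).le, Real.norm_of_nonneg (hp _).le]
        at this
    have hlt : ∀ a b : ℝ, 0 ≤ a → a < b → l a * a < l b * b := by
      intro a b ha hab
      calc l a * a ≤ l b * a := by gcongr; exact hm hab.le
        _ < l b * b := by gcongr; exact hp b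
    have he : ‖x‖ = ‖y‖ := by
      rcases lt_trichotomy ‖x‖ ‖y‖ with h1 | h1 | h1
      · exact absurd hn (hlt _ _ (norm_nonneg _) h1).ne
      · exact h1
      · exact absurd hn (hlt _ _ (norm_nonneg _) h1).ne'
    rw [he] at h
    exact smul_right_injective E (hp ‖y‖).ne' h
  · intro y
    have h1 : ‖y‖ ∈ Icc ((fun ρ => l ρ * ρ) 0) ((fun ρ => l ρ * ρ) (max R ‖y‖)) := by
      simp only [mul_zero, mem_Icc, norm_nonneg, true_and]
      rw [hR _ (le_max_left _ _), one_mul]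
      exact le_max_right _ _
    have h0 : (0 : ℝ) ≤ max R ‖y‖ := le_trans (norm_nonneg y) (le_max_right _ _)
    obtain ⟨ρ, hρ, hρy⟩ := intermediate_value_Icc h0
      (f := fun ρ => l ρ * ρ) (by fun_prop) h1
    simp only at hρy
    refine ⟨(l ρ)⁻¹ • y, ?_⟩
    have h2 : ‖(l ρ)⁻¹ • y‖ = ρ := by
      rw [norm_smul, norm_inv, Real.norm_of_nonneg (hp _).le, ← hρy]
      have := (hp ρ).ne'
      field_simp
    simp only [h2]
    rw [smul_smul, mul_inv_cancel₀ (hp ρ).ne', one_smul]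

/-- The scaling factor. -/
noncomputable def lam (r ν b ρ : ℝ) : ℝ :=
  min 1 (((r + ν - b * r) - (1 - b) * r * (r + ν) / max ρ r) / ν)

lemma lam_small {r ν b ρ : ℝ} (hr : 0 < r) (hν : 0 < ν) (hb : b ≤ 1) (h : ρ ≤ r) :
    lam r ν b ρ = b := by
  unfold lam
  rw [max_eq_right h]
  have : ((r + ν - b * r) - (1 - b) * r * (r + ν) / r) / ν = b := by
    field_simp
    ring
  rw [this, min_eq_right hb]

lemma lam_large {r ν b ρ : ℝ} (hr : 0 < r) (hν : 0 < ν) (hb : b ≤ 1) (h : r + ν ≤ ρ) :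
    lam r ν b ρ = 1 := by
  unfold lam
  apply min_eq_left
  rw [le_div_iff₀ hν]
  have h1 : max ρ r = ρ := max_eq_left (by linarith)
  rw [h1]
  have hρ : 0 < ρ := by linarith
  have h2 : (1 - b) * r * (r + ν) / ρ ≤ (1 - b) * r := by
    rw [div_le_iff₀ hρ]
    have : 0 ≤ (1 - b) * r := mul_nonneg (by linarith) hr.le
    exact mul_le_mul_of_nonneg_left h this
  linarith

lemma lam_one {r ν ρ : ℝ} (hν : 0 < ν) : lam r ν 1 ρ = 1 := by
  unfold lam
  have : ((r + ν - 1 * r) - (1 - 1) * r * (r + ν) / max ρ r) / ν = 1 := by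
    field_simp
    ring
  rw [this, min_self]

lemma lam_mono {r ν b : ℝ} (hr : 0 < r) (hν : 0 < ν) (hb : b ≤ 1) : Monotone (lam r ν b) := by
  intro ρ ρ' h
  unfold lam
  apply min_le_min le_rfl
  have h1 : 0 < max ρ r := lt_of_lt_of_le hr (le_max_right _ _)
  have h2 : max ρ r ≤ max ρ' r := max_le_max h le_rfl
  have h3 : 0 ≤ (1 - b) * r * (r + ν) :=
    mul_nonneg (mul_nonneg (by linarith) hr.le) (by linarith)
  gcongr

lemma lam_pos {r ν b : ℝ} (hr : 0 < r) (hν : 0 < ν) (hb : b ≤ 1) (hb0 : 0 < b) (ρ : ℝ) :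
    0 < lam r ν b ρ := by
  rcases le_total ρ r with h | h
  · rw [lam_small hr hν hb h]; exact hb0
  · have := lam_mono hr hν hb h
    rw [lam_small hr hν hb le_rfl] at this
    linarith

lemma lam_cont {r ν : ℝ} (hr : 0 < r) : Continuous fun x : ℝ × ℝ => lam r ν x.1 x.2 := by
  unfold lam
  have h : ∀ x : ℝ × ℝ, max x.2 r ≠ 0 := fun x => (lt_of_lt_of_le hr (le_max_right _ _)).ne'
  have h1 : Continuous fun x : ℝ × ℝ => (1 - x.1) * r * (r + ν) / max x.2 r :=
    Continuous.div (by fun_prop) (by fun_prop) h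
  fun_prop

/-- The slice. -/
def slice (r : ℝ) : Set ((X × ℝ) × ℝ) := {x | ‖x.1‖ ≤ r ∧ x.2 = 0}

lemma slice_compact [FiniteDimensional ℝ X] (r : ℝ) : IsCompact (slice (X := X) r) := by
  have hps : ProperSpace X := FiniteDimensional.proper ℝ X
  have : slice (X := X) r = closedBall 0 r ×ˢ {0} := by
    ext x
    simp [slice]
  rw [this]
  exact (isCompact_closedBall 0 r).prod isCompact_singleton

lemma compress (hT : Transport_Stmt) [CompactSpace B] [FiniteDimensional ℝ X] {q : ℕ}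
    (hq : 1 ≤ q) (P : Set (B × T)) (hPo : IsOpen P) (hP : Inv C q P) {u : B ≃ₜ B}
    (hu : ∀ t x, u (C.R t x) = C.R t (u x)) (υ : T) {r : ℝ} (hr : 0 < r) (hr2 : r < 1 / 2)
    (hTP : ∀ x ∈ slice r, psi C u υ x ∈ P) (ε : ℝ) (hε : 0 < ε) (hε1 : ε ≤ 1) :
    ∃ G : B × T ≃ₜ B × T, Comm C q G ∧ Supp G P ∧
      ∀ x ∈ slice r, G (psi C u υ x) = psi C u υ (ε • x) := by
  have hps : ProperSpace X := FiniteDimensional.proper ℝ X
  have hq0 : (0 : ℝ) < q := by exact_mod_cast hq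
  have ho : IsOpen (psi C u υ ⁻¹' P ∩ dom q) :=
    (hPo.preimage (psi_cont u υ)).inter (dom_open q)
  have hsd : ∀ x ∈ slice (X := X) r, x ∈ dom q := by
    intro x hx
    refine ⟨?_, ?_⟩
    · have h1 : |x.1.2| ≤ ‖x.1‖ := by
        rw [← Real.norm_eq_abs]; exact norm_snd_le x.1
      have := hx.1
      linarith
    · rw [hx.2]; simp [hq0]
  have hs : slice r ⊆ psi C u υ ⁻¹' P ∩ dom q := fun x hx => ⟨hTP x hx, hsd x hx⟩
  obtain ⟨ν, hν, hν'⟩ := (slice_compact (X := X) r).exists_cthickening_subset_open ho hs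
  have hK0 : ∀ x : (X × ℝ) × ℝ, ‖x.1‖ ≤ r + ν → |x.2| ≤ ν →
      x ∈ psi C u υ ⁻¹' P ∩ dom q := by
    intro x h1 h2
    apply hν'
    refine mem_cthickening_of_dist_le x (min 1 (r / ‖x.1‖) • x.1, 0) ν _ ?_ ?_
    · refine ⟨?_, rfl⟩
      simp only
      rw [norm_smul, Real.norm_of_nonneg (le_min zero_le_one (by positivity))]
      rcases eq_or_lt_of_le (norm_nonneg x.1) with h0 | h0
      · rw [← h0]; simp [hr.le]
      · calc min 1 (r / ‖x.1‖) * ‖x.1‖ ≤ (r / ‖x.1‖) * ‖x.1‖ := by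
              gcongr; exact min_le_right _ _
          _ = r := by field_simp
    · rw [Prod.dist_eq, max_le_iff]
      constructor
      · rw [dist_eq_norm]
        rcases le_or_gt ‖x.1‖ r with h3 | h3
        · have h4 : min 1 (r / ‖x.1‖) • x.1 = x.1 := by
            rcases eq_or_lt_of_le (norm_nonneg x.1) with h0 | h0
            · have : x.1 = 0 := norm_eq_zero.1 h0.symm
              rw [this]; simp
            · have : 1 ≤ r / ‖x.1‖ := (one_le_div h0).2 h3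
              rw [min_eq_left this, one_smul]
          simp only [h4, sub_self, norm_zero]
          exact hν.le
        · have h0 : 0 < ‖x.1‖ := by linarith
          have h4 : r / ‖x.1‖ ≤ 1 := (div_le_one h0).2 h3.le
          simp only [min_eq_right h4]
          have h5 : x.1 - (r / ‖x.1‖) • x.1 = (1 - r / ‖x.1‖) • x.1 := by
            rw [sub_smul, one_smul]
          rw [h5, norm_smul, Real.norm_of_nonneg (by linarith)]
          have h6 : (1 - r / ‖x.1‖) * ‖x.1‖ = ‖x.1‖ - r := by field_simp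
          linarith
      · simpa [Real.dist_eq] using h2
  let bb : ℝ → ℝ := fun t => min 1 (ε + |t| / ν)
  have hb1 : ∀ t, bb t ≤ 1 := fun t => min_le_left _ _
  have hb0 : ∀ t, 0 < bb t := fun t => lt_min one_pos (by positivity)
  have hbc : Continuous bb := by fun_prop
  let τ : (X × ℝ) × ℝ → (X × ℝ) × ℝ := fun x => (lam r ν (bb x.2) ‖x.1‖ • x.1, x.2)
  have hτc : Continuous τ := by
    have h1 : Continuous fun x : (X × ℝ) × ℝ => lam r ν (bb x.2) ‖x.1‖ :=
      (lam_cont hr).comp (by fun_prop : Continuous fun x : (X × ℝ) × ℝ => (bb x.2, ‖x.1‖))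
    fun_prop
  have hlc : ∀ b, Continuous (lam r ν b) := fun b =>
    (lam_cont hr).comp (Continuous.prodMk_right b)
  have hτb : Function.Bijective τ := by
    have h1 : ∀ t, Function.Bijective fun x : X × ℝ => lam r ν (bb t) ‖x‖ • x := fun t =>
      radial_bij (lam r ν (bb t)) (hlc _) (lam_mono hr hν (hb1 t)) (lam_pos hr hν (hb1 t) (hb0 t))
        (r + ν) fun ρ hρ => lam_large hr hν (hb1 t) hρ
    constructor
    · rintro ⟨x, t⟩ ⟨x', t'⟩ h
      simp only [τ, Prod.mk.injEq] at h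
      obtain ⟨h2, rfl⟩ := h
      have := (h1 t).1 h2
      rw [this]
    · rintro ⟨y, t⟩
      obtain ⟨x, hx⟩ := (h1 t).2 y
      exact ⟨(x, t), Prod.ext hx rfl⟩
  have hKc : IsCompact {x : (X × ℝ) × ℝ | ‖x.1‖ ≤ r + ν ∧ |x.2| ≤ ν} := by
    have : {x : (X × ℝ) × ℝ | ‖x.1‖ ≤ r + ν ∧ |x.2| ≤ ν} = closedBall 0 (r + ν) ×ˢ
        closedBall 0 ν := by
      ext x
      simp
    rw [this]
    exact (isCompact_closedBall _ _).prod (isCompact_closedBall _ _)
  obtain ⟨G, h1, h2, h3⟩ := transport' hT hq hu υ P hP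
    {x : (X × ℝ) × ℝ | ‖x.1‖ ≤ r + ν ∧ |x.2| ≤ ν} hKc
    (fun x hx => (hK0 x hx.1 hx.2).2) (fun x hx => (hK0 x hx.1 hx.2).1) τ hτc hτb
    (by
      intro x hx
      simp only [Set.mem_ofPred_eq, not_and_or, not_le] at hx
      have h4 : lam r ν (bb x.2) ‖x.1‖ = 1 := by
        rcases hx with hx | hx
        · exact lam_large hr hν (hb1 _) hx.le
        · have : bb x.2 = 1 := by
            apply min_eq_left
            have : 1 ≤ |x.2| / ν := (one_le_div hν).2 hx.le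
            linarith
          rw [this, lam_one hν]
      simp [τ, h4])
  refine ⟨G, h1, h2, fun x hx => ?_⟩
  rw [h3 x (hsd x hx)]
  congr 1
  have h5 : bb x.2 = ε := by
    rw [hx.2]
    simp [bb, hε1]
  simp only [τ, h5]
  rw [lam_small hr hν hε1 hx.1]
  refine Prod.ext rfl ?_
  simp [hx.2]

/-! ## Moving a point into `V` -/

lemma move_into (hT : Transport_Stmt) [CompactSpace B] [FiniteDimensional ℝ X] {q : ℕ}
    (hq : 1 ≤ q) (O V P : Set (B × T)) (hO : IsPreconnected O) (hV : IsOpen V) (hVn : V.Nonempty)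
    (hVO : V ⊆ O) (hPo : IsOpen P) (hP : Inv C q P) (hPO : P ⊆ O) (hOV : ∀ p ∈ O, p ∉ V → p ∈ P)
    (x : B × T) (hx : x ∈ P) :
    ∃ G : B × T ≃ₜ B × T, Comm C q G ∧ Supp G P ∧ G x ∈ V := by
  by_contra hcon
  push Not at hcon
  have hloc := local_move hT hq P hPo hP
  set A : Set (B × T) := {y | y ∈ P ∧ ∃ G : B × T ≃ₜ B × T, Comm C q G ∧ Supp G P ∧ G x = y}
    with hA
  set D : Set (B × T) := {y | y ∈ P ∧ ¬ ∃ G : B × T ≃ₜ B × T, Comm C q G ∧ Supp G P ∧ G x = y}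
    with hD
  have hAo : IsOpen A := by
    rw [isOpen_iff_forall_mem_open]
    rintro y ⟨hy, G, h1, h2, h3⟩
    obtain ⟨N, hN, hyN, hNP, hmv⟩ := hloc y hy
    refine ⟨N, fun z hz => ⟨hNP hz, ?_⟩, hN, hyN⟩
    obtain ⟨G', h4, h5, h6⟩ := hmv z hz
    exact ⟨G.trans G', h1.trans h4, h2.trans h5, by simp [h3, h6]⟩
  have hDo : IsOpen D := by
    rw [isOpen_iff_forall_mem_open]
    rintro y ⟨hy, hn⟩
    obtain ⟨N, hN, hyN, hNP, hmv⟩ := hloc y hy
    refine ⟨N, fun z hz => ⟨hNP hz, ?_⟩, hN, hyN⟩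
    rintro ⟨G, h1, h2, h3⟩
    obtain ⟨G', h4, h5, h6⟩ := hmv z hz
    exact hn ⟨G.trans G'.symm, h1.trans h4.symm, h2.trans h5.symm, by simp [h3, ← h6]⟩
  have hcov : O ⊆ A ∪ (D ∪ V) := by
    intro p hp
    by_cases hpV : p ∈ V
    · exact Or.inr (Or.inr hpV)
    · have hpP := hOV p hp hpV
      by_cases hpp : ∃ G : B × T ≃ₜ B × T, Comm C q G ∧ Supp G P ∧ G x = p
      · exact Or.inl ⟨hpP, hpp⟩
      · exact Or.inr (Or.inl ⟨hpP, hpp⟩)
  obtain ⟨v, hv⟩ := hVn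
  obtain ⟨z, -, hz1, hz2⟩ := hO A (D ∪ V) hAo (hDo.union hV) hcov
    ⟨x, hPO hx, hx, Homeomorph.refl _, Comm.refl q, Supp.refl P, rfl⟩ ⟨v, hVO hv, Or.inr hv⟩
  rcases hz2 with hz2 | hz2
  · exact hz2.2 hz1.2
  · obtain ⟨G, h1, h2, h3⟩ := hz1.2
    exact hcon G h1 h2 (by rw [h3]; exact hz2)

/-! ## The induction -/

lemma step (hT : Transport_Stmt) [CompactSpace B] [FiniteDimensional ℝ X] {q : ℕ}
    (hq : 1 ≤ q) (O V : Set (B × T)) (hO : IsOpen O) (hOi : Inv C q O) (hOc : IsPreconnected O)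
    (hV : IsOpen V) (hVi : Inv C q V) (hVn : V.Nonempty) (hVO : V ⊆ O) (S : Set (B × T))
    (hS : IsCompact S) {u : B ≃ₜ B} (hu : ∀ t x, u (C.R t x) = C.R t (u x)) (υ : T) {r : ℝ}
    (hr : 0 < r) (hr2 : r < 1 / 2) (hTO : ∀ x ∈ slice r, psi C u υ x ∈ O)
    (A : B × T ≃ₜ B × T) (hA : Comm C q A) (hAs : Supp A O)
    (hAg : ∀ x ∈ S, ∃ t, A (rr C t x) ∈ V) :
    ∃ A' : B × T ≃ₜ B × T, Comm C q A' ∧ Supp A' O ∧
      ∀ x ∈ S ∪ psi C u υ '' slice r, ∃ t, A' (rr C t x) ∈ V := by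
  have hq0 : (0 : ℝ) < q := by exact_mod_cast hq
  set V' : Set (B × T) := A ⁻¹' V with hV'
  have hV'o : IsOpen V' := hV.preimage A.continuous
  have hV'i : Inv C q V' := fun p => by rw [hV', mem_preimage, mem_preimage, hA, hVi]
  have hV'O : V' ⊆ O := fun p hp => hAs.maps (hVO hp)
  have hV'n : V'.Nonempty := by
    obtain ⟨v, hv⟩ := hVn
    exact ⟨A.symm v, by simpa [hV'] using hv⟩
  set GT : Set (B × T) := ⋃ i : Fin q, (rrh C ((i : ℝ) / q)) '' (psi C u υ '' slice r) with hGT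
  have hGTc : IsClosed GT := (isCompact_iUnion fun i =>
    ((slice_compact (X := X) r).image (psi_cont u υ)).image (rrh C _).continuous).isClosed
  have hGTi : ∀ p, p ∈ GT ↔ ∃ k : ℤ, ∃ x ∈ slice r, p = rr C ((k : ℝ) / q) (psi C u υ x) := by
    intro p
    rw [hGT, mem_iUnion]
    constructor
    · rintro ⟨i, _, ⟨x, hx, rfl⟩, rfl⟩
      exact ⟨i, x, hx, by simp [rrh]⟩
    · rintro ⟨k, x, hx, rfl⟩
      refine ⟨⟨(k % q).toNat, toNat_lt hq k⟩, _, ⟨x, hx, rfl⟩, ?_⟩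
      rw [rr_mod hq]
      rfl
  have hGTinv : Inv C q GT := by
    intro p
    rw [hGTi, hGTi]
    constructor
    · rintro ⟨k, x, hx, h⟩
      refine ⟨k - 1, x, hx, ?_⟩
      have e := rr_succ C q (k - 1) (psi C u υ x)
      rw [sub_add_cancel, ← h] at e
      exact (rrh C (1 / (q : ℝ))).injective e
    · rintro ⟨k, x, hx, rfl⟩
      exact ⟨k + 1, x, hx, (rr_succ C q k _).symm⟩
  set P0 : Set (B × T) := V' ∩ GTᶜ with hP0
  have hP0o : IsOpen P0 := hV'o.inter hGTc.isOpen_compl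
  have hP0i : Inv C q P0 := by
    intro p
    rw [hP0, mem_inter_iff, mem_inter_iff, hV'i, mem_compl_iff, mem_compl_iff, hGTinv]
  have hmeet : ∀ x ∈ S, ∃ t, rr C t x ∈ P0 := by
    intro x hx
    obtain ⟨t, ht⟩ := hAg x hx
    by_cases h1 : rr C t x ∈ GT
    · have hc : Continuous fun s : ℝ => rr C (t + s) x := by
        have h2 : Continuous fun s : ℝ => ((t + s, x) : ℝ × (B × T)) := by fun_prop
        exact (rr_cont2 C).comp h2
      have ho : IsOpen ((fun s : ℝ => rr C (t + s) x) ⁻¹' V') := hV'o.preimage hc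
      have h0 : (0 : ℝ) ∈ (fun s : ℝ => rr C (t + s) x) ⁻¹' V' := by
        simpa [hV'] using ht
      obtain ⟨δ, hδ, hb⟩ := Metric.isOpen_iff.1 ho 0 h0
      have hs0 : 0 < min δ (1 / (q : ℝ)) / 2 := by positivity
      have hs1 : min δ (1 / (q : ℝ)) / 2 < δ := by
        have := min_le_left δ (1 / (q : ℝ)); linarith
      have hs2 : min δ (1 / (q : ℝ)) / 2 < 1 / q := by
        have := min_le_right δ (1 / (q : ℝ))
        have : 0 < 1 / (q : ℝ) := by positivity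
        linarith
      generalize hs : min δ (1 / (q : ℝ)) / 2 = s at hs0 hs1 hs2
      refine ⟨t + s, hb (by simpa [abs_of_pos hs0] using hs1), fun h2 => ?_⟩
      rw [hGTi] at h1 h2
      obtain ⟨k, x1, hx1, e1⟩ := h1
      obtain ⟨k', x2, hx2, e2⟩ := h2
      rw [add_comm, rr_add, e1, rr_psi hu, rr_psi hu, rr_psi hu] at e2
      obtain ⟨-, ⟨m, hm⟩, -⟩ := psi_eq e2
      simp only [hx1.2, hx2.2, zero_add] at hm
      have h3 : ((k' - k - m * q : ℤ) : ℝ) = q * s := by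
        push_cast
        field_simp at hm
        linarith
      have h4 : (k' - k - m * q : ℤ) = 0 := by
        apply int_zero_of_abs_lt
        rw [h3, abs_of_pos (by positivity)]
        calc (q : ℝ) * s < q * (1 / q) := by gcongr
          _ = 1 := by field_simp
      rw [h4] at h3
      have : 0 < (q : ℝ) * s := by positivity
      rw [← h3] at this
      simp at this
    · exact ⟨t, ht, h1⟩
  obtain ⟨n, hn⟩ : ∃ n : ℕ, S ⊆ {x | ∃ t, ((n : ENNReal))⁻¹ < infEDist (rr C t x) P0ᶜ} := by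
    refine hS.elim_directed_cover _ ?_ ?_ ?_
    · intro n
      have : {x | ∃ t, ((n : ENNReal))⁻¹ < infEDist (rr C t x) P0ᶜ} =
          ⋃ t, (fun x => infEDist (rr C t x) P0ᶜ) ⁻¹' Ioi ((n : ENNReal))⁻¹ := by
        ext x; simp
      rw [this]
      exact isOpen_iUnion fun t => isOpen_Ioi.preimage (continuous_infEDist.comp (rr_cont C t))
    · intro x hx
      obtain ⟨t, ht⟩ := hmeet x hx
      have h1 : 0 < infEDist (rr C t x) P0ᶜ := by
        rw [infEDist_pos_iff_notMem_closure, hP0o.isClosed_compl.closure_eq]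
        exact fun h => h ht
      obtain ⟨n, hn⟩ := ENNReal.exists_inv_nat_lt h1.ne'
      exact mem_iUnion.2 ⟨n, t, hn⟩
    · refine directed_of_isDirected_le ?_
      rintro n m hnm x ⟨t, ht⟩
      refine ⟨t, lt_of_le_of_lt ?_ ht⟩
      gcongr
  set C0 : Set (B × T) := {p | ((n : ENNReal))⁻¹ ≤ infEDist p P0ᶜ} with hC0
  have hε : (0 : ENNReal) < (n : ENNReal)⁻¹ := by simp
  have hC0c : IsClosed C0 := isClosed_le continuous_const continuous_infEDist
  have hC0P : C0 ⊆ P0 := by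
    intro p hp
    by_contra h
    have h1 : infEDist p P0ᶜ = 0 := infEDist_zero_of_mem h
    rw [hC0] at hp
    have h2 : ((n : ENNReal))⁻¹ ≤ infEDist p P0ᶜ := hp
    rw [h1] at h2
    exact absurd h2 (not_le.2 hε)
  have hC0i : Inv C q C0 := by
    intro p
    have h1 : rr C (1 / (q : ℝ)) '' P0ᶜ = P0ᶜ := by
      ext y
      constructor
      · rintro ⟨z, hz, rfl⟩
        exact fun h => hz ((hP0i z).1 h)
      · intro hy
        refine ⟨rr C (-(1 / (q : ℝ))) y, fun h => hy ?_, ?_⟩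
        · have := (hP0i _).2 h
          rwa [← rr_add, add_neg_cancel, rr_zero] at this
        · rw [← rr_add, add_neg_cancel, rr_zero]
    have h2 := infEDist_image (x := p) (t := P0ᶜ) (rr_isom C (1 / (q : ℝ)))
    rw [h1] at h2
    change ((n : ENNReal))⁻¹ ≤ _ ↔ ((n : ENNReal))⁻¹ ≤ _
    rw [h2]
  set P : Set (B × T) := O ∩ C0ᶜ with hP
  have hPo : IsOpen P := hO.inter hC0c.isOpen_compl
  have hPi : Inv C q P := by
    intro p
    rw [hP, mem_inter_iff, mem_inter_iff, hOi, mem_compl_iff, mem_compl_iff, hC0i]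
  have hOV : ∀ p ∈ O, p ∉ V' → p ∈ P := fun p hp hpV => ⟨hp, fun h => hpV (hC0P h).1⟩
  have hTP : ∀ x ∈ slice r, psi C u υ x ∈ P := by
    intro x hx
    refine ⟨hTO x hx, fun h => (hC0P h).2 ?_⟩
    rw [hGTi]
    exact ⟨0, x, hx, by simp [rr_zero]⟩
  have h0s : (0 : (X × ℝ) × ℝ) ∈ slice (X := X) r := ⟨by simpa using hr.le, rfl⟩
  obtain ⟨m, hm1, hm2, hm3⟩ := move_into hT hq O V' P hOc hV'o hV'n hV'O hPo hPi inter_subset_left
    hOV (psi C u υ 0) (hTP 0 h0s)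
  have hmo : IsOpen ((fun x => m (psi C u υ x)) ⁻¹' V') :=
    hV'o.preimage (m.continuous.comp (psi_cont u υ))
  obtain ⟨δ, hδ, hb⟩ := Metric.isOpen_iff.1 hmo 0 hm3
  obtain ⟨c, hc1, hc2, hc3⟩ := compress hT hq P hPo hPi hu υ hr hr2 hTP (min 1 (δ / 2))
    (by positivity) (min_le_left _ _)
  refine ⟨(c.trans m).trans A, (hc1.trans hm1).trans hA,
    ((hc2.trans hm2).mono inter_subset_left).trans hAs, ?_⟩
  rintro x (hx | ⟨x, hx, rfl⟩)
  · obtain ⟨t, ht⟩ := hn hx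
    have h1 : rr C t x ∈ C0 := ht.le
    have h2 : rr C t x ∉ P := fun h => h.2 h1
    refine ⟨t, ?_⟩
    simp only [Homeomorph.trans_apply]
    rw [hc2.id h2, hm2.id h2]
    exact (hC0P h1).1
  · refine ⟨0, ?_⟩
    simp only [Homeomorph.trans_apply]
    rw [rr_zero, hc3 x hx]
    have h1 : (min 1 (δ / 2)) • x ∈ ball (0 : (X × ℝ) × ℝ) δ := by
      rw [mem_ball_zero_iff, norm_smul, Real.norm_of_nonneg (by positivity)]
      have h2 : ‖x‖ ≤ r := by
        rw [Prod.norm_def, hx.2, norm_zero]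
        exact max_le hx.1 hr.le
      calc min 1 (δ / 2) * ‖x‖ ≤ (δ / 2) * r := by
            gcongr
            exact min_le_right _ _
        _ ≤ (δ / 2) * 1 := by gcongr; linarith
        _ < δ := by linarith
    exact hb h1

end HitRel

open HitRel in
/-- HITREL. -/
theorem hitRel (hT : Transport_Stmt) {X : Type} [NormedAddCommGroup X] [NormedSpace ℝ X]
    [FiniteDimensional ℝ X] {B : Type} [MetricSpace B] [CompactSpace B] (C : RotChart X B) :
    HitRel_Stmt C := by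
  intro q Z V hq hZ hZi hZc hZm hV hVn hVZ
  set O : Set (B × T) := Zᶜ ×ˢ univ with hO
  have hOo : IsOpen O := hZ.isOpen_compl.prod isOpen_univ
  have hOi : Inv C q O := by
    intro p
    simp [hO, rr, ← hZi p.1]
  have hOc : IsPreconnected O := hZc.prod isPreconnected_univ
  set VG : Set (B × T) := {p | ∃ k : ℤ, rr C ((k : ℝ) / q) p ∈ V} with hVG
  have hVGo : IsOpen VG := by
    have : VG = ⋃ k : ℤ, (rr C ((k : ℝ) / q)) ⁻¹' V := by
      ext p; simp [hVG]
    rw [this]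
    exact isOpen_iUnion fun k => hV.preimage (rr_cont C _)
  have hVGi : Inv C q VG := by
    intro p
    constructor
    · rintro ⟨k, hk⟩
      refine ⟨k + 1, ?_⟩
      have : ((k + 1 : ℤ) : ℝ) / q = k / q + 1 / q := by push_cast; ring
      rwa [this, rr_add]
    · rintro ⟨k, hk⟩
      refine ⟨k - 1, ?_⟩
      have : (k : ℝ) / q = ((k - 1 : ℤ) : ℝ) / q + 1 / q := by push_cast; ring
      rwa [this, rr_add] at hk
  have hVGn : VG.Nonempty := by
    obtain ⟨v, hv⟩ := hVn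
    exact ⟨v, 0, by simpa [rr_zero] using hv⟩
  have hVGO : VG ⊆ O := by
    rintro p ⟨k, hk⟩
    have h1 : rr C ((k : ℝ) / q) p ∈ O := ⟨hVZ _ hk, mem_univ _⟩
    exact (hOi.int k p).1 h1
  have key : ∀ p : B × T, ∃ (u : B ≃ₜ B) (υ : T) (r : ℝ),
      (∀ t x, u (C.R t x) = C.R t (u x)) ∧ 0 < r ∧ r < 1 / 2 ∧
      (∀ x ∈ slice r, psi C u υ x ∈ O) ∧
      {p' | ∃ t, rr C t p' ∈ psi C u υ '' slice r} ∈ 𝓝 p := by
    intro p
    obtain ⟨t₀, ht₀⟩ := hZm p.1
    have hy : rr C t₀ p ∈ O := ⟨ht₀, mem_univ _⟩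
    obtain ⟨u, hu, h0⟩ := exists_chart (C := C) (rr C t₀ p)
    have ho : IsOpen (psi C u (rr C t₀ p).2 ⁻¹' O) := hOo.preimage (psi_cont u _)
    have hm : (0 : (X × ℝ) × ℝ) ∈ psi C u (rr C t₀ p).2 ⁻¹' O := by
      rw [mem_preimage, h0]; exact hy
    obtain ⟨r', hr', hb⟩ := Metric.nhds_basis_closedBall.mem_iff.1 (ho.mem_nhds hm)
    have hr0 : 0 < min r' (1 / 4) := by positivity
    refine ⟨u, (rr C t₀ p).2, min r' (1 / 4), hu, hr0,
      by have := min_le_right r' (1 / 4); linarith, ?_, ?_⟩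
    · intro x hx
      apply hb
      rw [mem_closedBall_zero_iff, Prod.norm_def, hx.2, norm_zero]
      exact max_le (hx.1.trans (min_le_left _ _)) hr'.le
    · have h1 : rr C t₀ ⁻¹' (psi C u (rr C t₀ p).2 '' ball 0 (min r' (1 / 4))) ∈ 𝓝 p := by
        apply IsOpen.mem_nhds
        · exact (psi_open u _ _ isOpen_ball).preimage (rr_cont C t₀)
        · exact ⟨0, mem_ball_self hr0, h0⟩
      refine Filter.mem_of_superset h1 ?_
      rintro p' ⟨x, hx, hxp⟩
      refine ⟨-x.2 + t₀, ?_⟩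
      rw [rr_add, ← hxp, rr_psi hu]
      refine ⟨_, ?_, rfl⟩
      refine ⟨?_, by simp⟩
      have h2 : ‖x‖ < min r' (1 / 4) := by simpa using hx
      exact (norm_fst_le x).trans h2.le
  choose u υ r hu hr hr2 hsl hW using key
  obtain ⟨s, -, hs⟩ := isCompact_univ.elim_nhds_subcover
    (fun p => {p' | ∃ t, rr C t p' ∈ psi C (u p) (υ p) '' slice (r p)}) fun p _ => hW p
  have hind : ∀ s : Finset (B × T), ∃ A : B × T ≃ₜ B × T, Comm C q A ∧ Supp A O ∧
      ∀ x ∈ ⋃ p ∈ s, psi C (u p) (υ p) '' slice (r p), ∃ t, A (rr C t x) ∈ VG := by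
    classical
    intro s
    induction s using Finset.induction_on with
    | empty => exact ⟨Homeomorph.refl _, Comm.refl q, Supp.refl O, by simp⟩
    | insert p s hp ih =>
      obtain ⟨A, h1, h2, h3⟩ := ih
      have hSc : IsCompact (⋃ p ∈ s, psi C (u p) (υ p) '' slice (r p)) :=
        s.isCompact_biUnion fun p _ => (slice_compact (X := X) (r p)).image (psi_cont _ _)
      obtain ⟨A', h4, h5, h6⟩ := step hT hq O VG hOo hOi hOc hVGo hVGi hVGn hVGO _ hSc (hu p)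
        (υ p) (hr p) (hr2 p) (hsl p) A h1 h2 h3
      refine ⟨A', h4, h5, fun x hx => h6 x ?_⟩
      rw [Finset.set_biUnion_insert] at hx
      exact hx.symm
  obtain ⟨A, hA1, ⟨K, hK, hKO, hAK⟩, hA3⟩ := hind s
  refine ⟨A, (Prod.fst '' K)ᶜ, (hK.image continuous_fst).isClosed.isOpen_compl, ?_, ?_, ?_, ?_⟩
  · rintro z hz ⟨x, hx, rfl⟩
    exact (hKO hx).1 hz
  · intro x hx
    exact hAK x fun h => hx ⟨x, h, rfl⟩
  · intro z υ
    exact hA1 (z, υ)
  · intro z υ'
    obtain ⟨p, hp, t, ht⟩ : ∃ p ∈ s, ∃ t, rr C t (z, υ') ∈ psi C (u p) (υ p) '' slice (r p) := by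
      have := hs (mem_univ (z, υ'))
      simpa using this
    obtain ⟨t', k, hk⟩ := hA3 (rr C t (z, υ')) (mem_iUnion₂.2 ⟨p, hp, ht⟩)
    refine ⟨(k : ℝ) / q + (t' + t), ?_⟩
    rw [← rr_add, ← hA1.int, ← rr_add] at hk
    exact hk

end Pool.Agent.EvenHomeo
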