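import Pool.Agent.Lib_helper32.EvenHomeo.SpaceCoordDefs

/-!
# The one point compactification as a compact metric space
-/

set_option linter.unusedSectionVars false

open Set Metric Topology

namespace Pool.Agent.EvenHomeo

namespace SpaceCoord

theorem OnePt_finrank (k : ℕ) : Module.finrank ℝ (N_ k) = 2 * k + 4 := by
  have h1 : Module.finrank ℝ (F_ k) = 2 * k := by
    have h2 := Module.finrank_mul_finrank ℝ ℂ (F_ k)
    rw [Complex.finrank_real_complex, finrank_euclideanSpace_fin] at h2
    exact h2.symm
  simp only [N_, Module.finrank_prod, Complex.finrank_real_complex, Module.finrank_self, h1]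
  ring

/-- The complement of the point at infinity. -/
noncomputable def OnePt_compl {V : Type} [TopologicalSpace V] :
    V ≃ₜ {x : OnePoint V // x ≠ OnePoint.infty} :=
  (OnePoint.isOpenEmbedding_coe.toIsEmbedding.toHomeomorph).trans
    (Homeomorph.setCongr (by
      rw [← OnePoint.compl_infty]
      rfl))

/-- ONEPT: the one point compactification of `N_ k` is homeomorphic to a compact metric space, and
the complement of the point at infinity is homeomorphic to a Euclidean space. -/
theorem onePt (k : ℕ) : ∃ (M : Type) (_ : MetricSpace M) (_ : CompactSpace M)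
    (φ : OnePoint (N_ k) ≃ₜ M),
    Nonempty ({x : M // x ≠ φ OnePoint.infty} ≃ₜ EuclideanSpace ℝ (Fin (2 * k + 4))) := by
  have hfin := OnePt_finrank k
  let φ : OnePoint (N_ k) ≃ₜ sphere (0 : EuclideanSpace ℝ (Fin (2 * k + 5))) 1 :=
    onePointEquivSphereOfFinrankEq (by rw [hfin, Fintype.card_fin])
  refine ⟨sphere (0 : EuclideanSpace ℝ (Fin (2 * k + 5))) 1, inferInstance, inferInstance, φ, ⟨?_⟩⟩
  have e1 : {x : OnePoint (N_ k) // x ≠ OnePoint.infty} ≃ₜ
      {x : sphere (0 : EuclideanSpace ℝ (Fin (2 * k + 5))) 1 // x ≠ φ OnePoint.infty} :=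
    φ.subtype fun x => by simp
  have e2 : N_ k ≃L[ℝ] EuclideanSpace ℝ (Fin (2 * k + 4)) :=
    ContinuousLinearEquiv.ofFinrankEq (by rw [hfin, finrank_euclideanSpace_fin])
  exact (e1.symm.trans OnePt_compl.symm).trans e2.toHomeomorph

end SpaceCoord

end Pool.Agent.EvenHomeo
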